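import Pool.Agent.Helper70.SUB.SheetA

/-!
Project SUB, row SUBT: the Subspace theorem from the parametric one.
-/

set_option autoImplicit false

namespace Pool.Agent.Helper60.SUB

open Finset Matrix
open Pool.Agent.Helper70.SUB

theorem ex_den {n : ℕ} (S : Finset ℕ) (A : Option ℕ → Matrix (Fin n) (Fin n) ℚ) :
    ∃ D : ℕ, 0 < D ∧ ∀ v ∈ plc S, ∀ i k, ∃ z : ℤ, (D : ℚ) * A v i k = z := by
  refine ⟨∏ v ∈ plc S, ∏ i, ∏ k, (A v i k).den, ?_, ?_⟩
  · exact Finset.prod_pos fun v _ => Finset.prod_pos fun i _ => Finset.prod_pos fun k _ =>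
      (A v i k).den_pos
  · intro v hv i k
    have h1 : (A v i k).den ∣ ∏ v ∈ plc S, ∏ i, ∏ k, (A v i k).den :=
      ((Finset.dvd_prod_of_mem (fun k => (A v i k).den) (Finset.mem_univ k)).trans
        (Finset.dvd_prod_of_mem (fun i => ∏ k, (A v i k).den) (Finset.mem_univ i))).trans
        (Finset.dvd_prod_of_mem (fun v => ∏ i, ∏ k, (A v i k).den) hv)
    obtain ⟨e, he⟩ := h1
    refine ⟨e * (A v i k).num, ?_⟩
    rw [he]
    push_cast
    have h2 : ((A v i k).den : ℚ) * A v i k = (A v i k).num := by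
      rw [mul_comm]; exact Rat.mul_den_eq_num _
    calc ((A v i k).den : ℚ) * (e : ℚ) * A v i k = e * (((A v i k).den : ℚ) * A v i k) := by ring
      _ = _ := by rw [h2]

/-- the matrices are made integral at the finite places -/
noncomputable def Am {n : ℕ} (D : ℕ) (A : Option ℕ → Matrix (Fin n) (Fin n) ℚ) (v : Option ℕ) :
    Matrix (Fin n) (Fin n) ℚ := if v = none then A v else (D : ℚ) • A v

theorem ex_int {n : ℕ} (S : Finset ℕ) (A : Option ℕ → Matrix (Fin n) (Fin n) ℚ) (D : ℕ)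
    (hD : ∀ v ∈ plc S, ∀ i k, ∃ z : ℤ, (D : ℚ) * A v i k = z) (v : Option ℕ) (hv : v ∈ plc S)
    (y : Fin n → ℤ) (i : Fin n) : ∃ z : ℤ, (D : ℚ) * (A v).mulVec (cv y) i = z := by
  choose f hf using hD v hv
  refine ⟨∑ k, f i k * y k, ?_⟩
  simp only [Matrix.mulVec, dotProduct, cv]
  rw [Finset.mul_sum]
  push_cast
  refine Finset.sum_congr rfl fun k _ => ?_
  rw [← hf i k]; ring

theorem Am_mul {n : ℕ} (D : ℕ) (A : Option ℕ → Matrix (Fin n) (Fin n) ℚ) (v : Option ℕ)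
    (hv : v ≠ none) (y : Fin n → ℤ) (i : Fin n) :
    (Am D A v).mulVec (cv y) i = (D : ℚ) * (A v).mulVec (cv y) i := by
  simp only [Am, if_neg hv, Matrix.mulVec, dotProduct, Matrix.smul_apply, smul_eq_mul]
  rw [Finset.mul_sum]
  exact Finset.sum_congr rfl fun k _ => by ring

theorem real_le {n : ℕ} (B : Matrix (Fin n) (Fin n) ℚ) (y : Fin n → ℤ) (i : Fin n) :
    |((B.mulVec (cv y) i : ℚ) : ℝ)| ≤ (∑ k, |(B i k : ℝ)|) * ‖y‖ := by
  simp only [Matrix.mulVec, dotProduct, cv]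
  push_cast
  calc |∑ k, (B i k : ℝ) * (y k : ℝ)| ≤ ∑ k, |(B i k : ℝ) * (y k : ℝ)| :=
        Finset.abs_sum_le_sum_abs _ _
    _ ≤ ∑ k, |(B i k : ℝ)| * ‖y‖ := by
        refine Finset.sum_le_sum fun k _ => ?_
        rw [abs_mul]
        refine mul_le_mul_of_nonneg_left ?_ (abs_nonneg _)
        have := norm_le_pi_norm y k
        rwa [Int.norm_eq_abs] at this
    _ = _ := by rw [Finset.sum_mul]

/-- sizes of the values at all places -/
theorem ex_bd (hAV : ST_AV) {n : ℕ} (S : Finset ℕ) (hS : ∀ p ∈ S, p.Prime)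
    (A : Option ℕ → Matrix (Fin n) (Fin n) ℚ) (D : ℕ) (hD0 : 0 < D)
    (hD : ∀ v ∈ plc S, ∀ i k, ∃ z : ℤ, (D : ℚ) * A v i k = z) :
    ∃ C : ℝ, 1 ≤ C ∧ ∀ y : Fin n → ℤ, 1 ≤ ‖y‖ → ∀ v ∈ plc S, ∀ i,
      (Am D A v).mulVec (cv y) i ≠ 0 →
      1 ≤ C * ‖y‖ * av v ((Am D A v).mulVec (cv y) i) ∧
      av v ((Am D A v).mulVec (cv y) i) ≤ C * ‖y‖ := by
  set T : ℝ := ∑ v ∈ plc S, ∑ i, ∑ k, |(A v i k : ℝ)| with hT
  have hT0 : 0 ≤ T := Finset.sum_nonneg fun v _ => Finset.sum_nonneg fun i _ =>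
    Finset.sum_nonneg fun k _ => abs_nonneg _
  have hD1 : (1 : ℝ) ≤ D := by exact_mod_cast hD0
  have hrow : ∀ v ∈ plc S, ∀ i, ∑ k, |(A v i k : ℝ)| ≤ T := by
    intro v hv i
    have h1 : ∑ k, |(A v i k : ℝ)| ≤ ∑ i, ∑ k, |(A v i k : ℝ)| :=
      Finset.single_le_sum (f := fun i => ∑ k, |(A v i k : ℝ)|)
        (fun i _ => Finset.sum_nonneg fun k _ => abs_nonneg _) (Finset.mem_univ i)
    have h2 : ∑ i, ∑ k, |(A v i k : ℝ)| ≤ T :=
      Finset.single_le_sum (f := fun v => ∑ i, ∑ k, |(A v i k : ℝ)|)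
        (fun v _ => Finset.sum_nonneg fun i _ => Finset.sum_nonneg fun k _ => abs_nonneg _) hv
    exact h1.trans h2
  refine ⟨D * (1 + T), by nlinarith, ?_⟩
  intro y hy v hv i hne
  obtain ⟨hnn, -, hAV2⟩ := hAV
  obtain ⟨-, -, -, -, hle1, hge1, -⟩ := hAV2 S hS
  obtain ⟨z, hz⟩ := ex_int S A D hD v hv y i
  -- size of z
  have hzR : (D : ℝ) * (((A v).mulVec (cv y) i : ℚ) : ℝ) = z := by exact_mod_cast congrArg (Rat.cast (K := ℝ)) hz
  have hzle : |(z : ℝ)| ≤ D * T * ‖y‖ := by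
    rw [← hzR, abs_mul, abs_of_nonneg (by linarith : (0 : ℝ) ≤ D), mul_assoc]
    refine mul_le_mul_of_nonneg_left ?_ (by linarith)
    exact (real_le (A v) y i).trans (mul_le_mul_of_nonneg_right (hrow v hv i) (by linarith))
  by_cases hv0 : v = none
  · subst hv0
    have hAm : Am D A none = A none := by simp [Am]
    rw [hAm] at hne ⊢
    have hav : av none ((A none).mulVec (cv y) i) = |(((A none).mulVec (cv y) i : ℚ) : ℝ)| := rfl
    rw [hav]
    constructor
    · have hz0 : z ≠ 0 := by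
        rintro rfl
        apply hne
        have : (D : ℚ) ≠ 0 := by exact_mod_cast hD0.ne'
        simpa [this] using hz
      have h1 : (1 : ℝ) ≤ |(z : ℝ)| := by exact_mod_cast Int.one_le_abs hz0
      rw [← hzR, abs_mul, abs_of_nonneg (by linarith : (0 : ℝ) ≤ D)] at h1
      have h2 : (D : ℝ) ≤ D * (1 + T) * ‖y‖ := by
        have : (1 : ℝ) ≤ (1 + T) * ‖y‖ := by nlinarith
        nlinarith
      exact h1.trans (mul_le_mul_of_nonneg_right h2 (abs_nonneg _))
    · refine (real_le (A none) y i).trans (mul_le_mul_of_nonneg_right ?_ (by linarith))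
      have := hrow none hv i
      nlinarith
  · rw [Am_mul D A v hv0] at hne ⊢
    rw [hz] at hne ⊢
    have hz0 : z ≠ 0 := by rintro rfl; exact hne (by simp)
    obtain ⟨p, rfl⟩ : ∃ p, v = some p := Option.ne_none_iff_exists'.mp hv0
    have hp : p ∈ S := by simpa [plc] using hv
    constructor
    · have h1 := hge1 p hp z hz0
      have h2 : |(z : ℝ)| ≤ D * (1 + T) * ‖y‖ := hzle.trans (by nlinarith)
      calc (1 : ℝ) ≤ av (some p) z * |(z : ℝ)| := h1
        _ ≤ av (some p) z * (D * (1 + T) * ‖y‖) := mul_le_mul_of_nonneg_left h2 (hnn _ _)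
        _ = _ := by ring
    · refine (hle1 p hp z).trans ?_
      have : (1 : ℝ) ≤ (1 + T) * ‖y‖ := by nlinarith
      nlinarith

/-- (SUBT) the Subspace theorem -/
theorem SUBT (hAV : ST_AV) (hCPT : ST_CPT) (hPAR : ST_PAR) : ST_SUBT := by
  classical
  intro n S A ε M x hn hS hdet hε hM hfin hprod
  -- the degenerate case
  by_cases hdeg : ∃ v ∈ plc S, ∃ i, {j | j ∈ M ∧ (A v).mulVec (cv (x j)) i = 0}.Infinite
  · obtain ⟨v, hv, i, hinf⟩ := hdeg
    refine ⟨A v i, ?_, ?_⟩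
    · intro h0
      exact hdet v hv (Matrix.det_eq_zero_of_row_eq_zero i fun j => congrFun h0 j)
    · refine hinf.mono ?_
      rintro j ⟨hj, h⟩
      refine ⟨hj, ?_⟩
      simpa [Matrix.mulVec, dotProduct, cv] using h
  push Not at hdeg
  obtain ⟨D, hD0, hD⟩ := ex_den S A
  obtain ⟨C, hC1, hC⟩ := ex_bd hAV S hS A D hD0 hD
  have hAV' := hAV
  obtain ⟨hnn, hav0, hAV2⟩ := hAV'
  obtain ⟨hpos, hmul, -, -, hle1, hge1, -⟩ := hAV2 S hS
  have hDQ : (D : ℚ) ≠ 0 := by exact_mod_cast hD0.ne'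
  -- the good indices
  set H0 : ℝ := max C 3 with hH0
  set Z : Set ℕ := ⋃ v ∈ plc S, ⋃ i : Fin n, {j | j ∈ M ∧ (A v).mulVec (cv (x j)) i = 0} with hZ
  have hZf : Z.Finite := by
    refine Set.Finite.biUnion (plc S).finite_toSet fun v hv => ?_
    exact Set.finite_iUnion fun i => hdeg v hv i
  set M1 : Set ℕ := M \ (Z ∪ {j | j ∈ M ∧ ‖x j‖ ≤ H0}) with hM1
  have hM1i : M1.Infinite := hM.sdiff (hZf.union (hfin H0))
  have hM1M : M1 ⊆ M := Set.sdiff_subset
  have hbig : ∀ j ∈ M1, H0 < ‖x j‖ := by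
    intro j hj
    by_contra hcon
    exact hj.2 (Or.inr ⟨hj.1, not_lt.mp hcon⟩)
  have hx1 : ∀ j ∈ M1, 1 < ‖x j‖ := fun j hj => by
    have := hbig j hj
    have : (3 : ℝ) ≤ H0 := le_max_right _ _
    linarith
  have hxC : ∀ j ∈ M1, C ≤ ‖x j‖ := fun j hj => (le_max_left C 3).trans (hbig j hj).le
  have hnz : ∀ j ∈ M1, ∀ v ∈ plc S, ∀ i, (A v).mulVec (cv (x j)) i ≠ 0 := by
    intro j hj v hv i h0
    refine hj.2 (Or.inl ?_)
    simp only [hZ, Set.mem_iUnion]
    exact ⟨v, hv, i, hj.1, h0⟩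
  have hnz' : ∀ j ∈ M1, ∀ v ∈ plc S, ∀ i, (Am D A v).mulVec (cv (x j)) i ≠ 0 := by
    intro j hj v hv i
    by_cases hv0 : v = none
    · subst hv0; simpa [Am] using hnz j hj none hv i
    · rw [Am_mul D A v hv0]
      exact mul_ne_zero hDQ (hnz j hj v hv i)
  -- exponents
  set ce : ℕ → Option ℕ → Fin n → ℝ := fun j v i =>
    Real.log (av v ((Am D A v).mulVec (cv (x j)) i)) / Real.log ‖x j‖ with hce
  have hlog : ∀ j ∈ M1, 0 < Real.log ‖x j‖ := fun j hj => Real.log_pos (hx1 j hj)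
  have hce2 : ∀ j ∈ M1, ∀ v ∈ plc S, ∀ i, |ce j v i| ≤ 2 := by
    intro j hj v hv i
    have h0 := hpos v hv _ (hnz' j hj v hv i)
    obtain ⟨h1, h2⟩ := hC (x j) (hx1 j hj).le v hv i (hnz' j hj v hv i)
    have hx0 : 0 < ‖x j‖ := by linarith [hx1 j hj]
    have hC0 : 0 < C := by linarith
    have hCx : Real.log (C * ‖x j‖) ≤ 2 * Real.log ‖x j‖ := by
      rw [Real.log_mul hC0.ne' hx0.ne']
      have := Real.log_le_log hC0 (hxC j hj)
      linarith
    have hup : Real.log (av v ((Am D A v).mulVec (cv (x j)) i)) ≤ 2 * Real.log ‖x j‖ :=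
      (Real.log_le_log h0 h2).trans hCx
    have hlo : -(2 * Real.log ‖x j‖) ≤ Real.log (av v ((Am D A v).mulVec (cv (x j)) i)) := by
      have h3 := Real.log_le_log one_pos h1
      rw [Real.log_one, Real.log_mul (mul_pos hC0 hx0).ne' h0.ne'] at h3
      linarith
    rw [hce, abs_le]
    have hl := hlog j hj
    constructor
    · rw [le_div_iff₀ hl]; linarith
    · rw [div_le_iff₀ hl]; linarith
  have hpow : ∀ j ∈ M1, ∀ v ∈ plc S, ∀ i,
      av v ((Am D A v).mulVec (cv (x j)) i) = ‖x j‖ ^ (ce j v i) := by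
    intro j hj v hv i
    have h0 := hpos v hv _ (hnz' j hj v hv i)
    have hx0 : 0 < ‖x j‖ := by linarith [hx1 j hj]
    rw [Real.rpow_def_of_pos hx0, hce]
    simp only
    rw [mul_div_cancel₀ _ (hlog j hj).ne', Real.exp_log h0]
  -- the sum of the exponents
  have hsum : ∀ j ∈ M1, ∑ v ∈ plc S, ∑ i, ce j v i ≤ -ε := by
    intro j hj
    have hx0 : 0 < ‖x j‖ := by linarith [hx1 j hj]
    have h1 : ∏ v ∈ plc S, ∏ i, av v ((Am D A v).mulVec (cv (x j)) i) ≤ ‖x j‖ ^ (-ε) := by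
      refine le_trans ?_ (hprod j (hM1M hj))
      refine Finset.prod_le_prod (fun v hv => Finset.prod_nonneg fun i _ => hnn _ _) fun v hv => ?_
      refine Finset.prod_le_prod (fun i _ => hnn _ _) fun i _ => ?_
      by_cases hv0 : v = none
      · subst hv0; simp [Am]
      · rw [Am_mul D A v hv0, hmul v hv]
        obtain ⟨p, rfl⟩ : ∃ p, v = some p := Option.ne_none_iff_exists'.mp hv0
        have hp : p ∈ S := by simpa [plc] using hv
        have h3 := hle1 p hp (D : ℤ)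
        have h4 : av (some p) (D : ℚ) ≤ 1 := by simpa using h3
        calc av (some p) (D : ℚ) * av (some p) ((A (some p)).mulVec (cv (x j)) i)
            ≤ 1 * av (some p) ((A (some p)).mulVec (cv (x j)) i) :=
              mul_le_mul_of_nonneg_right h4 (hnn _ _)
          _ = _ := one_mul _
    have h2 : ∏ v ∈ plc S, ∏ i, av v ((Am D A v).mulVec (cv (x j)) i)
        = ‖x j‖ ^ (∑ v ∈ plc S, ∑ i, ce j v i) := by
      rw [Real.rpow_sum_of_pos hx0]
      refine Finset.prod_congr rfl fun v hv => ?_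
      rw [Real.rpow_sum_of_pos hx0]
      exact Finset.prod_congr rfl fun i _ => hpow j hj v hv i
    rw [h2] at h1
    exact (Real.rpow_le_rpow_left_iff (hx1 j hj)).mp h1
  -- compactness
  set m : ℝ := (plc S).card * n with hm
  have hcard : 0 < (plc S).card := Finset.card_pos.mpr ⟨none, by simp [plc]⟩
  have hm0 : 0 < m := by
    have h1 : (0 : ℝ) < (plc S).card := by exact_mod_cast hcard
    have h2 : (0 : ℝ) < n := by exact_mod_cast (by omega : 0 < n)
    exact mul_pos h1 h2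
  set η : ℝ := ε / (4 * m) with hη
  have hη0 : 0 < η := by positivity
  obtain ⟨M', c0, hM'1, hM'i, hc0⟩ := hCPT ({v // v ∈ plc S} × Fin n) M1 2 η
    (fun j q => ce j q.1.1 q.2) hM1i hη0 (fun j hj q => hce2 j hj q.1.1 q.1.2 q.2)
  set e : Option ℕ → Fin n → ℝ := fun v i => if h : v ∈ plc S then c0 (⟨v, h⟩, i) else 0 with he
  have hc0' : ∀ j ∈ M', ∀ v ∈ plc S, ∀ i, |ce j v i - e v i| ≤ η := by
    intro j hj v hv i
    have := hc0 j hj (⟨v, hv⟩, i)
    simpa [he, hv] using this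
  set c : Option ℕ → Fin n → ℝ := fun v i => if v = none then e v i + η else min (e v i + η) 0
    with hc
  have hcle : ∀ v i, c v i ≤ e v i + η := by
    intro v i
    simp only [hc]
    split_ifs
    · exact le_rfl
    · exact min_le_left _ _
  set Q : ℕ → ℝ := fun j => if j ∈ M' then ‖x j‖ else j with hQ
  have hres := hPAR n S (Am D A) c M' Q x hn hS ?_ ?_ ?_ hM'i ?_ ?_
  · obtain ⟨u, hu, hui⟩ := hres
    exact ⟨u, hu, hui.mono fun j hj => ⟨hM1M (hM'1 hj.1), hj.2⟩⟩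
  · intro v hv
    by_cases hv0 : v = none
    · subst hv0; simpa [Am] using hdet none hv
    · simp only [Am, if_neg hv0, Matrix.det_smul]
      exact mul_ne_zero (pow_ne_zero _ hDQ) (hdet v hv)
  · intro p hp i
    simp only [hc]
    rw [if_neg (by simp)]
    exact min_le_right _ _
  · obtain ⟨j, hj⟩ := hM'i.nonempty
    have h1 : ∑ v ∈ plc S, ∑ i, c v i ≤ ∑ v ∈ plc S, ∑ i, (ce j v i + 2 * η) := by
      refine Finset.sum_le_sum fun v hv => Finset.sum_le_sum fun i _ => ?_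
      have h2 := (abs_le.mp (hc0' j hj v hv i)).1
      linarith [hcle v i]
    have h3 : ∑ v ∈ plc S, ∑ i : Fin n, (ce j v i + 2 * η)
        = (∑ v ∈ plc S, ∑ i, ce j v i) + m * (2 * η) := by
      simp only [Finset.sum_add_distrib, Finset.sum_const, Finset.card_univ, Fintype.card_fin,
        nsmul_eq_mul]
      rw [hm]; ring
    have h4 : m * (2 * η) = ε / 2 := by
      rw [hη]; field_simp; ring
    have h5 := hsum j (hM'1 hj)
    rw [h3, h4] at h1
    linarith
  · rw [Filter.tendsto_atTop]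
    intro B
    have hf : {j | j ∈ M' ∧ ‖x j‖ ≤ B}.Finite :=
      (hfin B).subset fun j hj => ⟨hM1M (hM'1 hj.1), hj.2⟩
    have hf2 : ∀ᶠ j : ℕ in Filter.atTop, j ∉ {j | j ∈ M' ∧ ‖x j‖ ≤ B} := by
      have := hf.eventually_cofinite_notMem
      rwa [Nat.cofinite_eq_atTop] at this
    filter_upwards [hf2, Filter.eventually_ge_atTop ⌈B⌉₊] with j hj1 hj2
    simp only [hQ]
    split_ifs with hjM
    · by_contra hcon
      exact hj1 ⟨hjM, (not_le.mp hcon).le⟩
    · exact (Nat.le_ceil B).trans (by exact_mod_cast hj2)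
  · intro j hj
    have hj1 := hM'1 hj
    have hx0 : 0 < ‖x j‖ := by linarith [hx1 j hj1]
    refine ⟨fun h0 => ?_, fun v hv i => ?_⟩
    · rw [h0, norm_zero] at hx0; exact lt_irrefl _ hx0
    · have hQj : Q j = ‖x j‖ := by simp only [hQ]; rw [if_pos hj]
      rw [hQj]
      have h1 := hpow j hj1 v hv i
      have h2 := (abs_le.mp (hc0' j hj v hv i)).2
      have h3 : av v ((Am D A v).mulVec (cv (x j)) i) ≤ ‖x j‖ ^ (e v i + η) := by
        rw [h1]
        exact Real.rpow_le_rpow_of_exponent_le (hx1 j hj1).le (by linarith)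
      simp only [hc]
      split_ifs with hv0
      · exact h3
      · rcases le_total (e v i + η) 0 with h4 | h4
        · rw [min_eq_left h4]; exact h3
        · rw [min_eq_right h4, Real.rpow_zero]
          obtain ⟨p, rfl⟩ : ∃ p, v = some p := Option.ne_none_iff_exists'.mp hv0
          have hp : p ∈ S := by simpa [plc] using hv
          obtain ⟨z, hz⟩ := ex_int S A D hD (some p) hv (x j) i
          rw [Am_mul D A (some p) hv0, hz]
          exact hle1 p hp z

end Pool.Agent.Helper60.SUB
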