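import Pool.Agent.Helper60.SUB.MonZ

/-!
Project SUB, row SUBY: an integer close to the value of a Laurent polynomial in independent
S-units is such a value.
-/

set_option autoImplicit false

namespace Pool.Agent.Helper60.SUB

open Finset Matrix
open Pool.Agent.Helper70.SUB

/-- sums over a support as sums over `Fin t` -/
theorem ex_enum {α : Type} (s : Finset α) : ∃ ms : Fin s.card → α, Function.Injective ms ∧
    (∀ i, ms i ∈ s) ∧ ∀ f : α → ℚ, ∑ a ∈ s, f a = ∑ i, f (ms i) := by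
  refine ⟨fun i => ((s.equivFin.symm i : s) : α), ?_, fun i => (s.equivFin.symm i).2, ?_⟩
  · intro i i' h
    exact s.equivFin.symm.injective (Subtype.ext h)
  · intro f
    rw [← Finset.sum_coe_sort s f]
    exact (Equiv.sum_comp s.equivFin.symm (fun a : s => f a)).symm

/-- the forms at the real place -/
def Ar {t : ℕ} (F : Fin t → ℚ) : Matrix (Fin (t + 1)) (Fin (t + 1)) ℚ :=
  fun i j => Fin.cases (Fin.cases 1 (fun j' => -F j') j) (fun i' => if j = i'.succ then 1 else 0) i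

theorem Ar_det {t : ℕ} (F : Fin t → ℚ) : (Ar F).det = 1 := by
  have h1 : (Ar F).BlockTriangular id := by
    intro i j hij
    refine Fin.cases ?_ (fun i' => ?_) i hij
    · intro h; exact absurd h (by simp)
    · intro h
      simp only [id] at h
      simp only [Ar, Fin.cases_succ]
      rw [if_neg h.ne]
  rw [Matrix.det_of_isUpperTriangular h1]
  refine Finset.prod_eq_one fun i _ => ?_
  refine Fin.cases ?_ (fun i' => ?_) i
  · simp [Ar]
  · simp [Ar]

theorem Ar_zero {t : ℕ} (F : Fin t → ℚ) (x : Fin (t + 1) → ℤ) :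
    (Ar F).mulVec (cv x) 0 = (x 0 : ℚ) - ∑ i, F i * (x i.succ : ℚ) := by
  simp only [Matrix.mulVec, dotProduct, Ar, cv, Fin.cases_zero]
  rw [Fin.sum_univ_succ]
  simp only [Fin.cases_zero, Fin.cases_succ, one_mul, neg_mul, Finset.sum_neg_distrib]
  ring

theorem Ar_succ {t : ℕ} (F : Fin t → ℚ) (x : Fin (t + 1) → ℤ) (i : Fin t) :
    (Ar F).mulVec (cv x) i.succ = (x i.succ : ℚ) := by
  simp only [Matrix.mulVec, dotProduct, Ar, cv, Fin.cases_succ]
  simp

theorem evL_zero {r : ℕ} (w : Fin r → ℚ) : evL w (0 : Lau r) = 0 := by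
  simp [evL]

theorem evL_sum (hLAUB : ST_LAUB) {r : ℕ} (w : Fin r → ℚ) (hw : ∀ k, 0 < w k) {ι : Type}
    (s : Finset ι) (G : ι → Lau r) : evL w (∑ i ∈ s, G i) = ∑ i ∈ s, evL w (G i) := by
  classical
  obtain ⟨-, -, hadd, -, -⟩ := (hLAUB r).1 w hw
  induction s using Finset.induction_on with
  | empty => simpa using evL_zero w
  | insert a s ha ih => rw [Finset.sum_insert ha, Finset.sum_insert ha, hadd, ih]

/-- (SUBY) -/
theorem SUBY (hSUBT : ST_SUBT) (hREL : ST_REL) (hAV : ST_AV) (hLAUB : ST_LAUB) : ST_SUBY := by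
  classical
  intro r S M w F a η H z hS hM hη ha hind hHfin hj
  by_cases hF : F = 0
  · -- the zero polynomial
    refine ⟨M \ {j | j ∈ M ∧ H j ≤ 1}, 0, Set.sdiff_subset, hM.sdiff (hHfin 1), ?_⟩
    rintro j ⟨hjM, hj1⟩
    have hH1 : 1 < H j := by
      by_contra hcon; exact hj1 ⟨hjM, not_lt.mp hcon⟩
    obtain ⟨-, -, -, h4⟩ := hj j hjM
    rw [hF, evL_zero] at h4
    have h5 : H j ^ (-η) < 1 := Real.rpow_lt_one_of_one_lt_of_neg hH1 (by linarith)
    have h6 : |(z j : ℝ)| < 1 := by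
      have : |((z j : ℚ) : ℝ) - ((0 : ℚ) : ℝ)| = |(z j : ℝ)| := by simp
      rw [this] at h4
      exact h4.trans_lt h5
    have h7 : z j = 0 := by
      have : |z j| < 1 := by exact_mod_cast h6
      exact Int.abs_lt_one_iff.mp this
    rw [h7, evL_zero]; simp
  -- enumeration of the support
  set s : Finset (Fin r → ℤ) := Finsupp.support F.coeff with hs
  obtain ⟨ms, hinj, hmem, hsum⟩ := ex_enum s
  have hsne : s.Nonempty := by
    rw [Finset.nonempty_iff_ne_empty]
    intro h0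
    apply hF
    have h1 : F.coeff = 0 := Finsupp.support_eq_empty.mp h0
    ext m
    simp [h1]
  have ht : 0 < s.card := Finset.card_pos.mpr hsne
  obtain ⟨B, hB⟩ := ex_B s
  have hBm : ∀ i k, |ms i k| ≤ B := fun i => hB _ (hmem i)
  set Fc : Fin s.card → ℚ := fun i => F.coeff (ms i) with hFc
  have hev : ∀ j, evL (w j) F = ∑ i, Fc i * mon (w j) (ms i) := by
    intro j
    simp only [evL]
    exact hsum fun m => F.coeff m * mon (w j) m
  set X : ℕ → Fin (s.card + 1) → ℤ := fun j => Fin.cons (dZ B (w j) * z j)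
    (fun i => yZ B (w j) (ms i)) with hX
  have hX0 : ∀ j, X j 0 = dZ B (w j) * z j := fun j => rfl
  have hXs : ∀ j i, X j (Fin.succ i) = yZ B (w j) (ms i) := fun j i => rfl
  have hpos : ∀ j ∈ M, ∀ k, 0 < w j k := hind.1
  have hy : ∀ j ∈ M, ∀ i, (yZ B (w j) (ms i) : ℚ) = (dZ B (w j) : ℚ) * mon (w j) (ms i) :=
    fun j hjM i => yZ_eq B (w j) (ms i) (hpos j hjM) (hBm i)
  have hSUy : ∀ j ∈ M, ∀ i, SU S (yZ B (w j) (ms i)) := fun j hjM i =>
    yZ_SU S B (w j) (ms i) _ (hj j hjM).2.1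
  have hSUd : ∀ j ∈ M, SU S (dZ B (w j)) := fun j hjM => dZ_SU S B (w j) _ (hj j hjM).2.1
  have hd0 : ∀ j ∈ M, (dZ B (w j) : ℚ) ≠ 0 := fun j hjM => by exact_mod_cast (hSUd j hjM).1
  by_cases hbd : ∃ b : ℝ, {j | j ∈ M ∧ ‖X j‖ ≤ b}.Infinite
  · -- bounded vectors: the ratio of `z` and a monomial is constant
    obtain ⟨b, hb⟩ := hbd
    obtain ⟨x0, -, hx0⟩ := pig _ hb X {x | ‖x‖ ≤ b} (fin_norm b) fun j h => h.2
    set i0 : Fin s.card := ⟨0, ht⟩
    refine ⟨{j | j ∈ {j | j ∈ M ∧ ‖X j‖ ≤ b} ∧ X j = x0},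
      AddMonoidAlgebra.single (ms i0) ((x0 0 : ℚ) / (x0 i0.succ : ℚ)), fun j h => h.1.1, hx0, ?_⟩
    rintro j ⟨⟨hjM, -⟩, hjx⟩
    obtain ⟨-, hsg, -⟩ := (hLAUB r).1 (w j) (hpos j hjM)
    rw [hsg]
    have h1 : (x0 0 : ℚ) = (dZ B (w j) : ℚ) * z j := by
      rw [← hjx, hX0]; push_cast; ring
    have h2 : (x0 i0.succ : ℚ) = (dZ B (w j) : ℚ) * mon (w j) (ms i0) := by
      rw [← hjx, hXs, hy j hjM]
    rw [h1, h2]
    have h3 := hd0 j hjM
    have h4 := mon_ne (w j) (ms i0) (hpos j hjM)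
    field_simp
  push Not at hbd
  -- the Subspace theorem
  set A : ℝ := 2 * B * r * a + a with hA
  have hA0 : 0 < A := by positivity
  have hXle : ∀ j ∈ M, ‖X j‖ ≤ H j ^ A := by
    intro j hjM
    obtain ⟨hH1, hSQ, hz, -⟩ := hj j hjM
    have hH0 : 0 ≤ H j := by linarith
    have hHa : 1 ≤ H j ^ a := Real.one_le_rpow hH1 ha.le
    have hyb : ∀ m : Fin r → ℤ, (∀ k, |m k| ≤ B) →
        |(yZ B (w j) m : ℝ)| ≤ H j ^ (2 * B * r * a) := by
      intro m hm
      refine (yZ_le S B (w j) m (H j ^ a) hHa hSQ hm).trans ?_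
      rw [← Real.rpow_natCast, ← Real.rpow_mul hH0]
      push_cast
      rw [mul_comm a]
    have hD : |(dZ B (w j) : ℝ)| ≤ H j ^ (2 * B * r * a) := by
      have h1 := hyb 0 (fun k => by simp)
      have h2 : yZ B (w j) 0 = dZ B (w j) := by
        have := yZ_eq B (w j) 0 (hpos j hjM) (fun k => by simp)
        have h3 : mon (w j) 0 = 1 := by simp [mon]
        rw [h3, mul_one] at this
        exact_mod_cast this
      rwa [h2] at h1
    rw [pi_norm_le_iff_of_nonneg (by positivity)]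
    intro i
    rw [Int.norm_eq_abs]
    refine Fin.cases ?_ (fun i' => ?_) i
    · rw [hX0, hA, Real.rpow_add (by linarith)]
      push_cast
      rw [abs_mul]
      exact mul_le_mul hD hz (abs_nonneg _) (by positivity)
    · rw [hXs, hA]
      exact (hyb _ (hBm i')).trans (Real.rpow_le_rpow_of_exponent_le hH1 (by linarith))
  have hXpos : ∀ j ∈ M, 0 < ‖X j‖ := by
    intro j hjM
    have h1 : X j ≠ 0 := by
      intro h0
      have h2 := congrFun h0 (Fin.succ (⟨0, ht⟩ : Fin s.card))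
      rw [hXs] at h2
      exact (hSUy j hjM _).1 h2
    exact norm_pos_iff.mpr h1
  obtain ⟨hnn, -, hAV2⟩ := hAV
  obtain ⟨-, hmul, -, -, hle1, -, -, hone, -⟩ := hAV2 S hS
  have hplc : ∀ f : Option ℕ → ℝ, ∏ v ∈ plc S, f v = f none * ∏ p ∈ S, f (some p) := by
    intro f
    simp only [plc]
    rw [Finset.prod_insertNone]
  have hres := hSUBT (s.card + 1) S (fun v => if v = none then Ar Fc else 1) (η / A) M X
    (by omega) hS ?_ (by positivity) hM (fun b => ?_) ?_
  rotate_left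
  · intro v _
    by_cases hv : v = none
    · simp only [hv, if_true]; rw [Ar_det]; exact one_ne_zero
    · simp only [if_neg hv, Matrix.det_one]; exact one_ne_zero
  · exact hbd b
  · intro j hjM
    obtain ⟨hH1, hSQ, hz, hzF⟩ := hj j hjM
    have h1 : ∀ v ∈ plc S, ∏ i, av v (((if v = none then Ar Fc else 1)).mulVec (cv (X j)) i)
        = av v (((if v = none then Ar Fc else 1)).mulVec (cv (X j)) 0)
          * ∏ i, av v (yZ B (w j) (ms i) : ℚ) := by
      intro v _
      rw [Fin.prod_univ_succ]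
      congr 1
      refine Finset.prod_congr rfl fun i _ => ?_
      by_cases hv : v = none
      · simp only [hv, if_true]; rw [Ar_succ, hXs]
      · simp only [if_neg hv, Matrix.one_mulVec, cv]; rw [hXs]
    rw [Finset.prod_congr rfl h1, Finset.prod_mul_distrib, Finset.prod_comm]
    have h2 : ∏ i, ∏ v ∈ plc S, av v (yZ B (w j) (ms i) : ℚ) = 1 :=
      Finset.prod_eq_one fun i _ => hone _ (hSUy j hjM i).1 (hSUy j hjM i).2
    rw [h2, mul_one, hplc]
    simp only [if_true, reduceCtorEq, if_false, Matrix.one_mulVec, cv]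
    have h3 : (Ar Fc).mulVec (cv (X j)) 0
        = (dZ B (w j) : ℚ) * ((z j : ℚ) - evL (w j) F) := by
      rw [Ar_zero Fc (X j), hX0, hev j, mul_sub, Finset.mul_sum]
      push_cast
      congr 1
      refine Finset.sum_congr rfl fun i _ => ?_
      rw [hXs, hy j hjM]; ring
    rw [h3]
    have hnone : (none : Option ℕ) ∈ plc S := by simp [plc]
    have h4 : ∏ p ∈ S, av (some p) ((X j 0 : ℤ) : ℚ)
        = (∏ p ∈ S, av (some p) (dZ B (w j) : ℚ)) * ∏ p ∈ S, av (some p) (z j : ℚ) := by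
      rw [← Finset.prod_mul_distrib]
      refine Finset.prod_congr rfl fun p hp => ?_
      rw [hX0]; push_cast
      exact hmul (some p) (by simpa [plc] using hp) _ _
    have h5 : ∏ p ∈ S, av (some p) (z j : ℚ) ≤ 1 :=
      Finset.prod_le_one (fun p _ => hnn _ _) fun p hp => hle1 p hp (z j)
    have h6 : av none (dZ B (w j) : ℚ) * ∏ p ∈ S, av (some p) (dZ B (w j) : ℚ) = 1 := by
      rw [← hplc (fun v => av v (dZ B (w j) : ℚ))]
      exact hone _ (hSUd j hjM).1 (hSUd j hjM).2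
    rw [h4, hmul none hnone]
    have h7 : av none ((z j : ℚ) - evL (w j) F) ≤ H j ^ (-η) := by
      have : av none ((z j : ℚ) - evL (w j) F)
          = |((z j : ℚ) : ℝ) - ((evL (w j) F : ℚ) : ℝ)| := by
        simp only [av]; push_cast; rfl
      rw [this]; exact hzF
    have h8 : H j ^ (-η) ≤ ‖X j‖ ^ (-(η / A)) := by
      have hH0 : 0 ≤ H j := by linarith
      have h9 : (H j ^ A) ^ (-(η / A)) ≤ ‖X j‖ ^ (-(η / A)) :=
        Real.rpow_le_rpow_of_nonpos (hXpos j hjM) (hXle j hjM) (by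
          have : 0 ≤ η / A := by positivity
          linarith)
      rw [← Real.rpow_mul hH0] at h9
      have h10 : A * (-(η / A)) = -η := by field_simp
      rwa [h10] at h9
    have hnn1 : 0 ≤ ∏ p ∈ S, av (some p) (z j : ℚ) := Finset.prod_nonneg fun p _ => hnn _ _
    calc av none (dZ B (w j) : ℚ) * av none ((z j : ℚ) - evL (w j) F)
          * ((∏ p ∈ S, av (some p) (dZ B (w j) : ℚ)) * ∏ p ∈ S, av (some p) (z j : ℚ))
        = (av none (dZ B (w j) : ℚ) * ∏ p ∈ S, av (some p) (dZ B (w j) : ℚ))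
          * (av none ((z j : ℚ) - evL (w j) F) * ∏ p ∈ S, av (some p) (z j : ℚ)) := by ring
      _ = av none ((z j : ℚ) - evL (w j) F) * ∏ p ∈ S, av (some p) (z j : ℚ) := by
          rw [h6, one_mul]
      _ ≤ H j ^ (-η) * 1 := mul_le_mul h7 h5 hnn1 (by
          have : 0 ≤ H j := by linarith
          positivity)
      _ ≤ ‖X j‖ ^ (-(η / A)) := by rw [mul_one]; exact h8
  obtain ⟨u, hu, hui⟩ := hres
  have hrel : ∀ j ∈ M, ∑ i, u i * (X j i : ℚ) = 0 →
      u 0 * (z j : ℚ) + ∑ i : Fin s.card, u i.succ * mon (w j) (ms i) = 0 := by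
    intro j hjM h0
    rw [Fin.sum_univ_succ] at h0
    have h1 : (dZ B (w j) : ℚ) * (u 0 * (z j : ℚ) + ∑ i : Fin s.card, u i.succ * mon (w j) (ms i))
        = 0 := by
      rw [← h0, mul_add, Finset.mul_sum]
      congr 1
      · rw [hX0]; push_cast; ring
      · refine Finset.sum_congr rfl fun i _ => ?_
        rw [hXs, hy j hjM]; ring
    exact (mul_eq_zero.mp h1).resolve_left (hd0 j hjM)
  by_cases hu0 : u 0 = 0
  · -- a relation between the monomials
    exfalso
    obtain ⟨ks, kinj, kmem, ksum⟩ := ex_enum (Finset.univ.filter fun i : Fin s.card => u i.succ ≠ 0)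
    have hku : ∀ i, u (ks i).succ ≠ 0 := fun i => (Finset.mem_filter.mp (kmem i)).2
    have hex : (Finset.univ.filter fun i : Fin s.card => u i.succ ≠ 0).Nonempty := by
      by_contra hcon
      rw [Finset.not_nonempty_iff_eq_empty] at hcon
      apply hu
      funext i
      refine Fin.cases hu0 (fun i' => ?_) i
      by_contra h
      have : i' ∈ Finset.univ.filter fun i : Fin s.card => u i.succ ≠ 0 :=
        Finset.mem_filter.mpr ⟨Finset.mem_univ _, h⟩
      rw [hcon] at this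
      exact absurd this (Finset.notMem_empty _)
    have hz0 : ∀ j ∈ {j | j ∈ M ∧ ∑ i, u i * (X j i : ℚ) = 0},
        ∑ i, u (ks i).succ * (yZ B (w j) (ms (ks i)) : ℚ) = 0 := by
      rintro j ⟨hjM, h0⟩
      have h1 := hrel j hjM h0
      rw [hu0, zero_mul, zero_add] at h1
      have h2 : ∑ i : Fin s.card, u i.succ * (yZ B (w j) (ms i) : ℚ) = 0 := by
        have : ∑ i : Fin s.card, u i.succ * (yZ B (w j) (ms i) : ℚ)
            = (dZ B (w j) : ℚ) * ∑ i : Fin s.card, u i.succ * mon (w j) (ms i) := by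
          rw [Finset.mul_sum]
          refine Finset.sum_congr rfl fun i _ => ?_
          rw [hy j hjM]; ring
        rw [this, h1, mul_zero]
      rw [← ksum fun i => u i.succ * (yZ B (w j) (ms i) : ℚ)]
      refine Eq.trans (Finset.sum_subset (Finset.filter_subset _ _) fun i _ hi => ?_) h2
      have h4 : u i.succ = 0 := by
        by_contra h; exact hi (Finset.mem_filter.mpr ⟨Finset.mem_univ _, h⟩)
      rw [h4, zero_mul]
    obtain ⟨i, i', M', ρ, hii, hM'1, hM'i, hρ⟩ := hREL _ S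
      (fun i => u (ks i).succ) {j | j ∈ M ∧ ∑ i, u i * (X j i : ℚ) = 0}
      (fun j i => yZ B (w j) (ms (ks i))) hS ⟨⟨0, Finset.card_pos.mpr hex⟩⟩ hku hui
      (fun j h i => hSUy j h.1 (ks i)) hz0
    have hl : ms (ks i) - ms (ks i') ≠ 0 := by
      intro h
      exact hii (kinj (hinj (sub_eq_zero.mp h)))
    apply hM'i
    refine (hind.2 (ms (ks i) - ms (ks i')) ρ hl).subset ?_
    intro j hjM'
    have hjM := (hM'1 hjM').1
    refine ⟨hjM, ?_⟩
    obtain ⟨hmon, -⟩ := (hLAUB r).1 (w j) (hpos j hjM)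
    have h1 := hρ j hjM'
    rw [hy j hjM, hy j hjM] at h1
    have h2 : mon (w j) (ms (ks i)) = ρ * mon (w j) (ms (ks i')) := by
      have h3 := hd0 j hjM
      have h4 : (dZ B (w j) : ℚ) * (mon (w j) (ms (ks i)) - ρ * mon (w j) (ms (ks i'))) = 0 := by
        linear_combination h1
      exact sub_eq_zero.mp ((mul_eq_zero.mp h4).resolve_left h3)
    have h5 : mon (w j) (ms (ks i)) = mon (w j) (ms (ks i) - ms (ks i')) * mon (w j) (ms (ks i')) := by
      rw [← hmon, sub_add_cancel]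
    rw [h5] at h2
    exact mul_right_cancel₀ (mon_ne (w j) (ms (ks i')) (hpos j hjM)) h2
  · refine ⟨{j | j ∈ M ∧ ∑ i, u i * (X j i : ℚ) = 0},
      ∑ i : Fin s.card, AddMonoidAlgebra.single (ms i) (-(u i.succ / u 0)), fun j h => h.1, hui, ?_⟩
    rintro j ⟨hjM, h0⟩
    obtain ⟨-, hsg, -⟩ := (hLAUB r).1 (w j) (hpos j hjM)
    rw [evL_sum hLAUB (w j) (hpos j hjM)]
    have h1 := hrel j hjM h0
    have h2 : ∑ i : Fin s.card, evL (w j) (AddMonoidAlgebra.single (ms i) (-(u i.succ / u 0)))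
        = -((∑ i : Fin s.card, u i.succ * mon (w j) (ms i)) / u 0) := by
      rw [Finset.sum_div, ← Finset.sum_neg_distrib]
      refine Finset.sum_congr rfl fun i _ => ?_
      rw [hsg]; ring
    rw [h2]
    field_simp
    linear_combination h1

end Pool.Agent.Helper60.SUB
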