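import Pool.Agent.Helper70.SUB.SheetA

/-!
Project SUB: S-units, monomials in rational S-units made integral.
-/

set_option autoImplicit false

namespace Pool.Agent.Helper60.SUB

open Finset Matrix
open Pool.Agent.Helper70.SUB

theorem SU_one (S : Finset ℕ) : SU S 1 :=
  ⟨one_ne_zero, fun q hq h => by
    have := Int.eq_one_of_dvd_one (by positivity) h
    exact absurd (by exact_mod_cast this) hq.one_lt.ne'⟩

theorem SU_mul {S : Finset ℕ} {u v : ℤ} (hu : SU S u) (hv : SU S v) : SU S (u * v) :=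
  ⟨mul_ne_zero hu.1 hv.1, fun q hq h => by
    rcases (Nat.prime_iff_prime_int.mp hq).dvd_or_dvd h with h | h
    · exact hu.2 q hq h
    · exact hv.2 q hq h⟩

theorem SU_pow {S : Finset ℕ} {u : ℤ} (hu : SU S u) (n : ℕ) : SU S (u ^ n) := by
  induction n with
  | zero => simpa using SU_one S
  | succ n ih => rw [pow_succ]; exact SU_mul ih hu

theorem SU_prod {S : Finset ℕ} {ι : Type} (s : Finset ι) (f : ι → ℤ) (h : ∀ i ∈ s, SU S (f i)) :
    SU S (∏ i ∈ s, f i) := by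
  classical
  induction s using Finset.induction_on with
  | empty => simpa using SU_one S
  | insert a s ha ih =>
    rw [Finset.prod_insert ha]
    exact SU_mul (h a (Finset.mem_insert_self a s))
      (ih fun i hi => h i (Finset.mem_insert_of_mem hi))

/-- the monomial `m` multiplied by `∏ (num den) ^ B` -/
def yZ {r : ℕ} (B : ℕ) (w : Fin r → ℚ) (m : Fin r → ℤ) : ℤ :=
  ∏ k, ((w k).num ^ ((B : ℤ) + m k).toNat * ((w k).den : ℤ) ^ ((B : ℤ) - m k).toNat)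

/-- the common factor -/
def dZ {r : ℕ} (B : ℕ) (w : Fin r → ℚ) : ℤ := ∏ k, ((w k).num * ((w k).den : ℤ)) ^ B

theorem yZ_SU {r : ℕ} (S : Finset ℕ) (B : ℕ) (w : Fin r → ℚ) (m : Fin r → ℤ) (H : ℝ)
    (h : ∀ k, SQ S H (w k)) : SU S (yZ B w m) :=
  SU_prod _ _ fun k _ => SU_mul (SU_pow (h k).1 _) (SU_pow (h k).2.1 _)

theorem dZ_SU {r : ℕ} (S : Finset ℕ) (B : ℕ) (w : Fin r → ℚ) (H : ℝ)
    (h : ∀ k, SQ S H (w k)) : SU S (dZ B w) :=
  SU_prod _ _ fun k _ => SU_pow (SU_mul (h k).1 (h k).2.1) _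

theorem yZ_eq {r : ℕ} (B : ℕ) (w : Fin r → ℚ) (m : Fin r → ℤ) (h0 : ∀ k, 0 < w k)
    (hm : ∀ k, |m k| ≤ B) : (yZ B w m : ℚ) = (dZ B w : ℚ) * mon w m := by
  unfold yZ dZ mon
  push_cast
  rw [← Finset.prod_mul_distrib]
  refine Finset.prod_congr rfl fun k _ => ?_
  have hk := abs_le.mp (hm k)
  have hn : ((w k).num : ℚ) ≠ 0 := by
    exact_mod_cast (Rat.num_pos.mpr (h0 k)).ne'
  have hd : ((w k).den : ℚ) ≠ 0 := by exact_mod_cast (w k).den_ne_zero
  have h1 : ((w k).num : ℚ) ^ ((B : ℤ) + m k).toNat = ((w k).num : ℚ) ^ ((B : ℤ) + m k) := by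
    rw [← zpow_natCast, Int.toNat_of_nonneg (by omega)]
  have h2 : ((w k).den : ℚ) ^ ((B : ℤ) - m k).toNat = ((w k).den : ℚ) ^ ((B : ℤ) - m k) := by
    rw [← zpow_natCast, Int.toNat_of_nonneg (by omega)]
  have h3 : w k ^ (m k) = ((w k).num : ℚ) ^ (m k) * (((w k).den : ℚ) ^ (m k))⁻¹ := by
    conv_lhs => rw [← Rat.num_div_den (w k)]
    rw [div_zpow, div_eq_mul_inv]
  rw [h1, h2, h3, zpow_add₀ hn, zpow_sub₀ hd, zpow_natCast, zpow_natCast, mul_pow]
  ring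

theorem yZ_le {r : ℕ} (S : Finset ℕ) (B : ℕ) (w : Fin r → ℚ) (m : Fin r → ℤ) (H : ℝ)
    (hH : 1 ≤ H) (h : ∀ k, SQ S H (w k)) (hm : ∀ k, |m k| ≤ B) :
    |(yZ B w m : ℝ)| ≤ H ^ (2 * B * r) := by
  unfold yZ
  push_cast
  rw [Finset.abs_prod]
  calc ∏ k, |((w k).num : ℝ) ^ ((B : ℤ) + m k).toNat * ((w k).den : ℝ) ^ ((B : ℤ) - m k).toNat|
      ≤ ∏ _k : Fin r, H ^ (2 * B) := by
        refine Finset.prod_le_prod (fun k _ => abs_nonneg _) fun k _ => ?_
        have hk := abs_le.mp (hm k)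
        rw [abs_mul, abs_pow, abs_pow]
        have h1 : |((w k).num : ℝ)| ^ ((B : ℤ) + m k).toNat ≤ H ^ ((B : ℤ) + m k).toNat :=
          pow_le_pow_left₀ (abs_nonneg _) (h k).2.2.1 _
        have h2 : |((w k).den : ℝ)| ^ ((B : ℤ) - m k).toNat ≤ H ^ ((B : ℤ) - m k).toNat := by
          refine pow_le_pow_left₀ (abs_nonneg _) ?_ _
          rw [abs_of_nonneg (by positivity)]
          exact (h k).2.2.2
        refine (mul_le_mul h1 h2 (by positivity) (by positivity)).trans ?_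
        rw [← pow_add]
        exact pow_le_pow_right₀ hH (by omega)
    _ = _ := by rw [Finset.prod_const, Finset.card_univ, Fintype.card_fin, ← pow_mul]

theorem mon_ne {r : ℕ} (w : Fin r → ℚ) (m : Fin r → ℤ) (h0 : ∀ k, 0 < w k) : mon w m ≠ 0 :=
  Finset.prod_ne_zero_iff.mpr fun k _ => zpow_ne_zero _ (h0 k).ne'

/-- a common bound for the exponents -/
theorem ex_B {r : ℕ} (s : Finset (Fin r → ℤ)) : ∃ B : ℕ, ∀ m ∈ s, ∀ k, |m k| ≤ B := by
  refine ⟨∑ m ∈ s, ∑ k, (m k).natAbs, fun m hm k => ?_⟩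
  have h1 : (m k).natAbs ≤ ∑ m ∈ s, ∑ k, (m k).natAbs :=
    (Finset.single_le_sum (f := fun k => (m k).natAbs) (fun _ _ => Nat.zero_le _)
      (Finset.mem_univ k)).trans
      (Finset.single_le_sum (f := fun m : Fin r → ℤ => ∑ k, (m k).natAbs)
        (fun _ _ => Nat.zero_le _) hm)
  rw [Int.abs_eq_natAbs]
  exact_mod_cast h1

/-- finitely many integral vectors of bounded norm -/
theorem fin_norm {n : ℕ} (B : ℝ) : {x : Fin n → ℤ | ‖x‖ ≤ B}.Finite := by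
  refine (Set.finite_Icc (fun _ : Fin n => -⌊B⌋) (fun _ => ⌊B⌋)).subset ?_
  intro x hx
  have hx' : ‖x‖ ≤ B := hx
  have h1 : ∀ i, |x i| ≤ ⌊B⌋ := by
    intro i
    have h2 := norm_le_pi_norm x i
    rw [Int.norm_eq_abs] at h2
    have h3 : |(x i : ℝ)| ≤ B := h2.trans hx'
    exact Int.le_floor.mpr (by exact_mod_cast h3)
  exact ⟨fun i => (abs_le.mp (h1 i)).1, fun i => (abs_le.mp (h1 i)).2⟩

/-- pigeonhole for a finite range -/
theorem pig {α : Type} (M : Set ℕ) (hM : M.Infinite) (f : ℕ → α) (s : Set α) (hs : s.Finite)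
    (h : ∀ j ∈ M, f j ∈ s) : ∃ a ∈ s, {j | j ∈ M ∧ f j = a}.Infinite := by
  by_contra hcon
  push Not at hcon
  apply hM
  refine (hs.biUnion hcon).subset fun j hj => ?_
  simp only [Set.mem_iUnion]
  exact ⟨f j, h j hj, hj, rfl⟩

end Pool.Agent.Helper60.SUB
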